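import Pool.Agent.H.MP_3020f5_gt.Iso

namespace Pool.Agent.H.MP_5a76a9_gt
open Set Topology Filter MeasureTheory Pool.Agent.H.MP_3020f5_gt
open scoped ENNReal NNReal BoundedContinuousFunction

theorem smul_aux {X : Type*} [MeasurableSpace X] (α : Measure X) [IsFiniteMeasure α] :
    (α univ)⁻¹ • (α univ • α) = α := by
  by_cases h : α = 0
  · simp [h]
  · rw [smul_smul, ENNReal.inv_mul_cancel (Measure.measure_univ_eq_zero.not.2 h) (measure_ne_top _ _),
      one_smul]

theorem good_sub {A B : MM} (σ : Measure (A.X × B.X)) (h1 : σ.map Prod.fst ≤ A.μ)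
    (h2 : σ.map Prod.snd ≤ B.μ) (S : Set (A.X × B.X)) (hS : MeasurableSet S) {ε : ℝ} (hε : 0 ≤ ε)
    (hm : ENNReal.ofReal (1 - ε) ≤ σ S)
    (hd : ∀ s ∈ S, ∀ t ∈ S, |dist s.1 t.1 - dist s.2 t.2| ≤ ε) : Good A B ε := by
  haveI : IsFiniteMeasure (σ.map Prod.fst) := isFiniteMeasure_of_le A.μ h1
  haveI : IsFiniteMeasure (σ.map Prod.snd) := isFiniteMeasure_of_le B.μ h2
  have e1 := Measure.sub_add_cancel_of_le h1
  have e2 := Measure.sub_add_cancel_of_le h2
  set α := A.μ - σ.map Prod.fst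
  set β := B.μ - σ.map Prod.snd
  have m1 : α univ + σ univ = 1 := by
    have := congrArg (fun m : Measure A.X => m univ) e1
    simpa [Measure.map_apply measurable_fst] using this
  have m2 : β univ + σ univ = 1 := by
    have := congrArg (fun m : Measure B.X => m univ) e2
    simpa [Measure.map_apply measurable_snd] using this
  have hσ : σ univ ≠ ⊤ := ne_top_of_le_ne_top ENNReal.one_ne_top (m1 ▸ le_add_self)
  have m3 : α univ = β univ := (ENNReal.add_left_inj hσ).1 (m1.trans m2.symm)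
  let π : Measure (A.X × B.X) := σ + (α univ)⁻¹ • α.prod β
  have p1 : π.map Prod.fst = A.μ := by
    rw [Measure.map_add _ _ measurable_fst, Measure.map_smul, Measure.map_fst_prod, ← m3, smul_aux,
      add_comm, e1]
  have p2 : π.map Prod.snd = B.μ := by
    rw [Measure.map_add _ _ measurable_snd, Measure.map_smul, Measure.map_snd_prod, m3, smul_aux,
      add_comm, e2]
  haveI : IsProbabilityMeasure π := ⟨by
    have := congrArg (fun m : Measure A.X => m univ) p1
    simpa [Measure.map_apply measurable_fst] using this⟩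
  refine good_of π Prod.fst Prod.snd measurable_fst measurable_snd p1 p2 S hS hε ?_ hd
  refine (ENNReal.ofReal_le_iff_le_toReal (measure_ne_top _ _)).1 (hm.trans ?_)
  exact Measure.le_add_right le_rfl S

theorem inv_max_mul (a b : ℝ≥0∞) (ha : a ≠ ⊤) (hb : b ≠ ⊤) : (max a b)⁻¹ * (a * b) = min a b := by
  rcases le_total a b with h | h
  · rw [max_eq_right h, min_eq_left h]
    by_cases h0 : b = 0
    · simp [h0, nonpos_iff_eq_zero.1 (h0 ▸ h)]
    · rw [mul_comm a, ← mul_assoc, ENNReal.inv_mul_cancel h0 hb, one_mul]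
  · rw [max_eq_left h, min_eq_right h]
    by_cases h0 : a = 0
    · simp [h0, nonpos_iff_eq_zero.1 (h0 ▸ h)]
    · rw [← mul_assoc, ENNReal.inv_mul_cancel h0 ha, one_mul]

theorem inv_max_le (a m x : ℝ≥0∞) (h : a ≤ m) : m⁻¹ * (x * a) ≤ x := by
  rw [mul_left_comm]
  refine mul_le_of_le_one_right' ((mul_le_mul_right h _).trans ?_)
  exact ENNReal.inv_mul_le_one m

noncomputable def fam {C : Type} [MetricSpace C] [CompactSpace C] [MeasurableSpace C] [BorelSpace C]
    (μ : ProbabilityMeasure C) : MM := MM.mk C (μ : Measure C)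

theorem cont (C : Type) [MetricSpace C] [CompactSpace C] [MeasurableSpace C] [BorelSpace C] :
    Continuous fun μ : ProbabilityMeasure C => cls (fam μ) := by
  rw [continuous_iff_continuousAt]
  intro μ
  rw [ContinuousAt, Metric.tendsto_nhds]
  intro ε hε
  have hδ : 0 < ε / 8 := by positivity
  obtain ⟨t, -, ht⟩ := isCompact_univ.elim_nhds_subcover (fun x : C => Metric.ball x (ε / 8))
    (fun x _ => Metric.ball_mem_nhds x hδ)
  obtain ⟨f, hf⟩ := PartitionOfUnity.exists_isSubordinate (ι := t) isClosed_univ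
    (fun i : t => Metric.ball i.1 (ε / 8)) (fun _ => Metric.isOpen_ball) (by
      intro x hx
      obtain ⟨i, hi, h⟩ := mem_iUnion₂.1 (ht hx)
      exact mem_iUnion.2 ⟨⟨i, hi⟩, h⟩)
  let F : t → C →ᵇ ℝ≥0 := fun i => BoundedContinuousFunction.mkOfCompact
    ⟨fun x => (f i x).toNNReal, continuous_real_toNNReal.comp (f i).continuous⟩
  let ρ : t → C → ℝ≥0∞ := fun i x => F i x
  have hρ : ∀ i, Measurable (ρ i) := fun i => (F i).continuous.measurable.coe_nnreal_ennreal
  have hsum : ∀ x, ∑ i, ρ i x = 1 := fun x => by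
    have := f.sum_eq_one (mem_univ x)
    rw [finsum_eq_sum_of_fintype] at this
    show ∑ i, ENNReal.ofReal (f i x) = 1
    rw [← ENNReal.ofReal_sum_of_nonneg fun i _ => f.nonneg i x, this, ENNReal.ofReal_one]
  have hsupp : ∀ i, Function.support (ρ i) ⊆ Metric.ball i.1 (ε / 8) := fun i x hx => by
    refine hf i (subset_tsupport _ fun h => hx ?_)
    show ENNReal.ofReal (f i x) = 0
    rw [h, ENNReal.ofReal_zero]
  have hdec : ∀ (m : Measure C) (s : Set C), MeasurableSet s →
      ∑ i, m.withDensity (ρ i) s = m s := fun m s hs => by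
    simp only [withDensity_apply _ hs]
    rw [← lintegral_finset_sum _ fun i _ => hρ i]
    simp only [hsum]
    simp
  let a : t → ProbabilityMeasure C → ℝ≥0∞ := fun i ν => ∫⁻ x, ρ i x ∂(ν : Measure C)
  have ha : ∀ i (ν : ProbabilityMeasure C), (ν : Measure C).withDensity (ρ i) univ = a i ν :=
    fun i ν => by rw [withDensity_apply _ MeasurableSet.univ, Measure.restrict_univ]
  have ha' : ∀ i (ν : ProbabilityMeasure C),
      (ν : Measure C).withDensity (ρ i) (Metric.ball i.1 (ε / 8)) = a i ν := fun i ν => by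
    rw [withDensity_apply _ measurableSet_ball, setLIntegral_eq_of_support_subset (hsupp i)]
  have hs1 : ∀ ν, ∑ i, a i ν = 1 := fun ν => by
    simp only [← ha]
    rw [hdec _ _ MeasurableSet.univ, measure_univ]
  have hfin : ∀ i ν, a i ν ≠ ⊤ := fun i ν => ne_top_of_le_ne_top ENNReal.one_ne_top
    (hs1 ν ▸ Finset.single_le_sum (f := fun i => a i ν) (fun _ _ => zero_le) (Finset.mem_univ i))
  have hlim : Tendsto (fun ν => ∑ i, min (a i ν) (a i μ)) (𝓝 μ) (𝓝 1) := by
    rw [← hs1 μ]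
    refine tendsto_finset_sum _ fun i _ => ?_
    have := (ProbabilityMeasure.tendsto_iff_forall_lintegral_tendsto.1
      (tendsto_id (x := 𝓝 μ)) (F i)).min (tendsto_const_nhds (x := a i μ))
    rwa [show min (∫⁻ x, (F i x : ℝ≥0∞) ∂(μ : Measure C)) (a i μ) = a i μ from min_self _] at this
  filter_upwards [hlim.eventually (lt_mem_nhds (show ENNReal.ofReal (1 - ε / 2) < 1 by
    rw [ENNReal.ofReal_lt_one]; linarith))] with ν hν
  haveI : ∀ i (m : ProbabilityMeasure C), IsFiniteMeasure ((m : Measure C).withDensity (ρ i)) :=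
    fun i m => ⟨by rw [ha]; exact (hfin i m).lt_top⟩
  let σ : Measure (C × C) := ∑ i, (max (a i ν) (a i μ))⁻¹ •
    ((ν : Measure C).withDensity (ρ i)).prod ((μ : Measure C).withDensity (ρ i))
  have hσ : ∀ s, σ s = ∑ i, (max (a i ν) (a i μ))⁻¹ *
      ((ν : Measure C).withDensity (ρ i)).prod ((μ : Measure C).withDensity (ρ i)) s := fun s => by
    simp only [σ, Measure.finset_sum_apply, Measure.smul_apply, smul_eq_mul]
  have hS : MeasurableSet {p : C × C | dist p.1 p.2 ≤ ε / 4} :=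
    (isClosed_le continuous_dist continuous_const).measurableSet
  refine lt_of_le_of_lt (box_le (good_sub (A := fam ν) (B := fam μ) σ ?_ ?_
    {p : C × C | dist p.1 p.2 ≤ ε / 4} hS (ε := ε / 2) (by positivity) ?_ ?_))
    (by linarith)
  · show σ.map (Prod.fst : C × C → C) ≤ (ν : Measure C)
    refine Measure.le_iff.2 fun s hs => ?_
    rw [Measure.map_apply measurable_fst hs, hσ, ← hdec _ s hs, ← prod_univ]
    refine Finset.sum_le_sum fun i _ => ?_
    rw [Measure.prod_prod, ha]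
    exact inv_max_le _ _ _ (le_max_right _ _)
  · show σ.map (Prod.snd : C × C → C) ≤ (μ : Measure C)
    refine Measure.le_iff.2 fun s hs => ?_
    rw [Measure.map_apply measurable_snd hs, hσ, ← hdec _ s hs, ← univ_prod]
    refine Finset.sum_le_sum fun i _ => ?_
    rw [Measure.prod_prod, ha, mul_comm (a i ν)]
    exact inv_max_le _ _ _ (le_max_left _ _)
  · refine hν.le.trans ?_
    show _ ≤ σ {p : C × C | dist p.1 p.2 ≤ ε / 4}
    rw [hσ]
    refine Finset.sum_le_sum fun i _ => ?_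
    rw [← inv_max_mul _ _ (hfin i ν) (hfin i μ)]
    refine mul_le_mul_right ?_ _
    rw [← ha', ← ha', ← Measure.prod_prod]
    refine measure_mono fun p hp => ?_
    have h1 := Metric.mem_ball.1 hp.1
    have h2 := Metric.mem_ball.1 hp.2
    show dist p.1 p.2 ≤ ε / 4
    linarith [dist_triangle_right p.1 p.2 i.1]
  · intro s hs t ht
    have h1 : dist s.1 s.2 ≤ ε / 4 := hs
    have h2 : dist t.1 t.2 ≤ ε / 4 := ht
    have := dist_dist_dist_le s.1 t.1 s.2 t.2
    rw [Real.dist_eq] at this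
    exact this.trans (by linarith)

abbrev Cube (N R : ℕ) : Type := Fin N → Icc (0 : ℝ) R

theorem key (A : MM) (ε : ℝ) (hε : 0 < ε) : ∃ N R : ℕ, ∀ (B : MM) (r : ℝ), Good A B r →
    ∃ ν : ProbabilityMeasure (Cube N R), (∃ f : B.X → (fam ν).X, LipschitzWith 1 f ∧
      B.μ.map f = (fam ν).μ) ∧ Good A (fam ν) (r + 2 * ε) := by
  haveI : Nonempty A.X := nonempty_of_isProbabilityMeasure A.μ
  let x := TopologicalSpace.denseSeq A.X
  let U : ℕ → Set A.X := fun N => ⋃ i : Fin N, Metric.ball (x i) ε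
  have hUo : ∀ N, IsOpen (U N) := fun N => isOpen_iUnion fun _ => Metric.isOpen_ball
  have h1 : Tendsto (fun n : ℕ => A.μ (U n)) atTop (𝓝 1) := by
    have := tendsto_measure_iUnion_atTop (μ := A.μ) (s := U) (fun m n h y hy => by
      obtain ⟨i, hi⟩ := mem_iUnion.1 hy
      exact mem_iUnion.2 ⟨⟨i, i.2.trans_le h⟩, hi⟩)
    have e : ⋃ n, U n = univ := eq_univ_of_forall fun y => by
      obtain ⟨i, hi⟩ := (TopologicalSpace.denseRange_denseSeq A.X).exists_dist_lt y hε
      exact mem_iUnion.2 ⟨i + 1, mem_iUnion.2 ⟨⟨i, i.lt_succ_self⟩, hi⟩⟩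
    rwa [e, measure_univ] at this
  have h2 := (ENNReal.tendsto_toReal ENNReal.one_ne_top).comp h1
  obtain ⟨N, hN⟩ := (h2.eventually (lt_mem_nhds (show 1 - ε < (1 : ENNReal).toReal by
    simp [hε]))).exists
  have hN' : 1 - ε ≤ A.μ.real (U N) := hN.le
  have hb : Bornology.IsBounded (U N) := Bornology.isBounded_iUnion.2 fun _ => Metric.isBounded_ball
  obtain ⟨c, hc⟩ := Metric.isBounded_iff.1 hb
  obtain ⟨R, hR⟩ := exists_nat_ge c
  refine ⟨N, R, fun B r h => ?_⟩
  obtain ⟨h0, φ, ψ, p1, p2, S, hS, hm, hd⟩ := h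
  let T : Fin N → Set B.X := fun i => ψ '' (S ∩ φ ⁻¹' Metric.ball (x i) ε)
  let F : B.X → Cube N R := fun y i => ⟨min (Metric.infDist y (T i)) R,
    le_min Metric.infDist_nonneg (Nat.cast_nonneg _), min_le_right _ _⟩
  have hF : LipschitzWith 1 F := LipschitzWith.of_dist_le_mul fun y y' => by
    refine (dist_pi_le_iff (by positivity)).2 fun i => ?_
    exact ((Metric.lipschitz_infDist_pt (T i)).min_const (R : ℝ)).dist_le_mul y y'
  have hFm : Measurable F := hF.continuous.measurable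
  refine ⟨⟨B.μ.map F, Measure.isProbabilityMeasure_map hFm.aemeasurable⟩, ⟨F, hF, rfl⟩,
    by linarith, φ, F ∘ ψ, p1, ⟨hFm.comp p2.1, ?_⟩, S ∩ φ ⁻¹' U N,
    hS.inter (p1.1 (hUo N).measurableSet), ?_, ?_⟩
  · exact (Measure.map_map hFm p2.1).symm.trans (by rw [p2.2]; rfl)
  · have := inter_ge lam S (p1.1 (hUo N).measurableSet)
    rw [← p1.2, map_measureReal_apply p1.1 (hUo N).measurableSet] at hN'
    linarith
  · rintro s ⟨s1, s2⟩ t ⟨t1, t2⟩
    have u1 := abs_le.1 (hd s s1 t t1)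
    have u2 := hF.dist_le_mul (ψ s) (ψ t)
    rw [NNReal.coe_one, one_mul] at u2
    obtain ⟨i, hi⟩ := mem_iUnion.1 s2
    have u3 : dist (F (ψ s) i) (F (ψ t) i) ≤ dist (F (ψ s)) (F (ψ t)) := dist_le_pi_dist _ _ i
    have u4 : Metric.infDist (ψ s) (T i) = 0 := Metric.infDist_zero_of_mem ⟨s, ⟨s1, hi⟩, rfl⟩
    have u5 : dist (φ s) (φ t) - r - 2 * ε ≤ Metric.infDist (ψ t) (T i) := by
      refine (Metric.le_infDist (s := T i) ⟨ψ s, s, ⟨s1, hi⟩, rfl⟩).2 ?_
      rintro _ ⟨u, ⟨v1, v2⟩, rfl⟩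
      have w1 := abs_le.1 (hd t t1 u v1)
      have w2 := Metric.mem_ball.1 hi
      have w3 : dist (φ u) (x i) < ε := v2
      have w4 := dist_triangle_right (φ s) (φ u) (x i)
      have w5 := dist_triangle_right (φ s) (φ t) (φ u)
      linarith [w1.1, w1.2]
    have u6 : dist (φ s) (φ t) ≤ R := (hc s2 t2).trans hR
    have u7 : min (Metric.infDist (ψ t) (T i)) R ≤ dist (F (ψ s) i) (F (ψ t) i) := by
      show _ ≤ |min (Metric.infDist (ψ s) (T i)) R - min (Metric.infDist (ψ t) (T i)) R|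
      rw [u4, min_eq_left (Nat.cast_nonneg _), zero_sub, abs_neg]
      exact le_abs_self _
    have u8 : dist (φ s) (φ t) - r - 2 * ε ≤ min (Metric.infDist (ψ t) (T i)) R :=
      le_min u5 (by linarith)
    show |dist (φ s) (φ t) - dist (F (ψ s)) (F (ψ t))| ≤ r + 2 * ε
    rw [abs_le]
    constructor <;> linarith [u1.1, u1.2]

end Pool.Agent.H.MP_5a76a9_gt
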