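import Pool.Agent.H.MP_5a76a9_gt.Cube

namespace Pool.Agent.H.MP_5a76a9_gt
open Set Topology Filter MeasureTheory Pool.Agent.H.MP_3020f5_gt Metric TopologicalSpace
open scoped ENNReal

/-- The Lipschitz order on classes: `Dom y x` means that `y` is dominated by `x`. -/
def Dom (y x : XX) : Prop := ∃ Y X : MM, cls Y = y ∧ cls X = x ∧
  ∃ f : X.X → Y.X, LipschitzWith 1 f ∧ X.μ.map f = Y.μ

/-- Pyramids. -/
def IsPyramid (P : Set XX) : Prop := P.Nonempty ∧ IsClosed P ∧ (∀ x ∈ P, ∀ y, Dom y x → y ∈ P) ∧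
  ∀ x ∈ P, ∀ y ∈ P, ∃ z ∈ P, Dom x z ∧ Dom y z

/-- The set of pyramids. -/
def Pyr : Type 1 := {P : Set XX // IsPyramid P}

/-- The set of box-closed sets. -/
def FF : Type 1 := {F : Set XX // IsClosed F}

/-- The inclusion of pyramids into closed sets. -/
def incl (P : Pyr) : FF := ⟨P.1, P.2.2.1⟩

/-- Weak convergence of a sequence of pyramids. -/
def Weak (P : ℕ → Pyr) (Q : Pyr) : Prop :=
  (∀ x ∈ Q.1, Tendsto (fun n => infEDist x (P n).1) atTop (𝓝 0)) ∧
    ∀ x ∉ Q.1, 0 < liminf (fun n => infEDist x (P n).1) atTop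

/-- The weak topology: the topology determined by the weakly convergent sequences. -/
@[reducible] def weakTop : TopologicalSpace Pyr where
  IsOpen U := ∀ P Q, Weak P Q → Q ∈ U → ∀ᶠ n in atTop, P n ∈ U
  isOpen_univ _ _ _ _ := Eventually.of_forall fun _ => trivial
  isOpen_inter _ _ hU hV P Q h hQ := (hU P Q h hQ.1).and (hV P Q h hQ.2)
  isOpen_sUnion _ hS P Q h hQ := by
    obtain ⟨U, hU, hQ⟩ := hQ
    exact (hS U hU P Q h hQ).mono fun n hn => ⟨U, hU, hn⟩

/-- The Fell topology. -/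
@[reducible] def fell : TopologicalSpace FF := generateFrom
  ({S | ∃ U : Set XX, IsOpen U ∧ S = {F | (F.1 ∩ U).Nonempty}} ∪
    {S | ∃ K : Set XX, IsCompact K ∧ S = {F | F.1 ∩ K = ∅}})

/-- The Wijsman topology. -/
@[reducible] noncomputable def wijsman : TopologicalSpace FF :=
  ⨅ x : XX, induced (fun F : FF => infEDist x F.1) inferInstance

def Fam (N R : ℕ) : Set XX := range fun ν : ProbabilityMeasure (Cube N R) => cls (fam ν)

theorem Fam_cpt (N R : ℕ) : IsCompact (Fam N R) := isCompact_range (cont _)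

theorem key' (x : XX) (ε : ℝ) (hε : 0 < ε) : ∃ N R : ℕ, ∀ y r, dist x y < r →
    ∃ z ∈ Fam N R, Dom z y ∧ dist x z < r + 2 * ε := by
  obtain ⟨A, rfl⟩ := cls_surj x
  obtain ⟨N, R, h⟩ := key A ε hε
  refine ⟨N, R, fun y r hy => ?_⟩
  obtain ⟨B, rfl⟩ := cls_surj y
  obtain ⟨r', h1, h2⟩ := exists_lt_of_csInf_lt (s := {ε | Good A B ε}) ⟨1, good_one A B⟩ hy
  obtain ⟨ν, h3, h4⟩ := h B r' h1
  exact ⟨_, ⟨ν, rfl⟩, ⟨_, B, rfl, rfl, h3⟩, (box_le h4).trans_lt (by linarith)⟩

instance : Nonempty XX := ⟨cls pt⟩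

instance : SeparableSpace XX := by
  rw [← isSeparable_univ_iff]
  have : IsSeparable (⋃ N, ⋃ R, Fam N R) :=
    IsSeparable.iUnion fun N => IsSeparable.iUnion fun R => (Fam_cpt N R).isSeparable
  refine this.closure.mono fun x _ => Metric.mem_closure_iff.2 fun ε hε => ?_
  obtain ⟨N, R, h⟩ := key' x (ε / 4) (by positivity)
  obtain ⟨z, h1, -, h2⟩ := h x (ε / 2) (by rw [dist_self]; positivity)
  exact ⟨z, mem_iUnion₂.2 ⟨N, R, h1⟩, by linarith⟩

theorem s1 : weakTop ≤ induced incl fell := by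
  rw [← continuous_iff_le_induced, continuous_generateFrom_iff]
  rintro S (⟨U, hU, rfl⟩ | ⟨K, hK, rfl⟩) P Q h hQ
  · obtain ⟨x, hx, hxU⟩ := hQ
    obtain ⟨ε, hε, hb⟩ := Metric.isOpen_iff.1 hU x hxU
    filter_upwards [(h.1 x hx).eventually (gt_mem_nhds (ENNReal.ofReal_pos.2 hε))] with n hn
    obtain ⟨y, hy, h2⟩ := infEDist_lt_iff.1 hn
    exact ⟨y, hy, hb (mem_ball'.2 (edist_lt_ofReal.1 h2))⟩
  · have hQ' : Q.1 ∩ K = ∅ := hQ
    show ∀ᶠ n in atTop, (P n).1 ∩ K = ∅
    refine hK.induction_on (p := fun s => ∀ᶠ n in atTop, (P n).1 ∩ s = ∅) (by simp) ?_ ?_ ?_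
    · intro s t hst ht
      exact ht.mono fun n hn => subset_eq_empty (inter_subset_inter_right _ hst) hn
    · intro s t hs ht
      filter_upwards [hs, ht] with n h1 h2
      rw [inter_union_distrib_left, h1, h2, union_empty]
    · intro x hx
      have hx' : x ∉ Q.1 := fun h => (hQ' ▸ (⟨h, hx⟩ : x ∈ Q.1 ∩ K) : x ∈ (∅ : Set XX))
      obtain ⟨r, -, r1, r2⟩ := ENNReal.lt_iff_exists_real_btwn.1 (h.2 x hx')
      refine ⟨ball x r, mem_nhdsWithin_of_mem_nhds (ball_mem_nhds x (ENNReal.ofReal_pos.1 r1)), ?_⟩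
      filter_upwards [eventually_lt_of_lt_liminf r2] with n hn
      refine eq_empty_of_forall_notMem fun y hy => ?_
      exact lt_asymm (hn.trans_le (infEDist_le_edist_of_mem hy.1))
        (edist_lt_ofReal.2 (mem_ball'.1 hy.2))

theorem s2 : induced incl fell ≤ induced incl wijsman := by
  letI := fell
  letI := induced incl fell
  rw [← continuous_iff_le_induced, continuous_iInf_rng]
  intro x
  rw [continuous_induced_rng, OrderTopology.continuous_iff]
  have hi : Continuous incl := continuous_induced_dom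
  intro a
  constructor
  · rw [isOpen_iff_forall_mem_open]
    intro P hP
    obtain ⟨r1, -, h1, h2⟩ := ENNReal.lt_iff_exists_real_btwn.1 (show a < infEDist x P.1 from hP)
    obtain ⟨r2, h0, h3, h4⟩ := ENNReal.lt_iff_exists_real_btwn.1 h2
    have h5 : r1 < r2 := (ENNReal.ofReal_lt_ofReal_iff'.1 h3).1
    obtain ⟨N, R, hk⟩ := key' x ((r2 - r1) / 2) (by linarith)
    refine ⟨incl ⁻¹' {F | F.1 ∩ (Fam N R ∩ closedBall x r2) = ∅}, fun Q hQ => ?_,
      hi.isOpen_preimage _ (isOpen_generateFrom_of_mem (Or.inr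
        ⟨_, (Fam_cpt N R).inter_right isClosed_closedBall, rfl⟩)), ?_⟩
    · have hQ' : Q.1 ∩ (Fam N R ∩ closedBall x r2) = ∅ := hQ
      show a < infEDist x Q.1
      refine h1.trans_le (le_infEDist.2 fun y hy => not_lt.1 fun hc => ?_)
      obtain ⟨z, z1, z2, z3⟩ := hk y r1 (edist_lt_ofReal.1 hc)
      have : z ∈ Q.1 ∩ (Fam N R ∩ closedBall x r2) :=
        ⟨Q.2.2.2.1 y hy z z2, z1, mem_closedBall'.2 (by linarith)⟩
      rw [hQ'] at this
      exact this
    · refine eq_empty_of_forall_notMem fun y hy => ?_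
      refine absurd (h4.trans_le (infEDist_le_edist_of_mem hy.1)) (not_lt.2 ?_)
      exact (edist_le_ofReal h0).2 (mem_closedBall'.1 hy.2.2)
  · have : ((fun F : FF => infEDist x F.1) ∘ incl) ⁻¹' Iio a =
        incl ⁻¹' {F | (F.1 ∩ {y | edist x y < a}).Nonempty} := by
      ext P
      exact infEDist_lt_iff
    rw [this]
    exact hi.isOpen_preimage _ (isOpen_generateFrom_of_mem (Or.inl
      ⟨_, isOpen_lt (continuous_const.edist continuous_id) continuous_const, rfl⟩))

noncomputable def G (P : Pyr) (n : ℕ) : ℝ≥0∞ := infEDist (denseSeq XX n) P.1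

theorem s3 : induced incl wijsman ≤ induced G inferInstance := by
  letI := wijsman
  letI := induced incl wijsman
  rw [← continuous_iff_le_induced]
  refine continuous_pi fun n => ?_
  have h1 : Continuous fun F : FF => infEDist (denseSeq XX n) F.1 :=
    continuous_iInf_dom (t₁ := fun x : XX => induced (fun F : FF => infEDist x F.1) inferInstance)
      (i := denseSeq XX n) continuous_induced_dom
  have hi : Continuous incl := continuous_induced_dom
  exact h1.comp hi

theorem weak_of {P : ℕ → Pyr} {Q : Pyr}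
    (h : ∀ k, Tendsto (fun n => G (P n) k) atTop (𝓝 (G Q k))) : Weak P Q := by
  constructor
  · intro x hx
    rw [ENNReal.tendsto_nhds_zero]
    intro ε hε
    obtain ⟨r, -, r1, r2⟩ := ENNReal.lt_iff_exists_real_btwn.1 hε
    have r3 : 0 < r / 2 := half_pos (ENNReal.ofReal_pos.1 r1)
    obtain ⟨k, hk⟩ := (denseRange_denseSeq XX).exists_dist_lt x r3
    have h1 : G Q k < ENNReal.ofReal (r / 2) :=
      (infEDist_le_edist_of_mem hx).trans_lt (edist_lt_ofReal.2 (by rwa [dist_comm]))
    filter_upwards [(h k).eventually (gt_mem_nhds h1)] with n hn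
    refine (infEDist_le_infEDist_add_edist (y := denseSeq XX k)).trans (le_trans ?_ r2.le)
    rw [← add_halves r, ENNReal.ofReal_add r3.le r3.le]
    exact add_le_add hn.le (edist_lt_ofReal.2 hk).le
  · intro x hx
    obtain ⟨r, r0, hr⟩ := exists_real_pos_lt_infEDist_of_notMem_closure
      (show x ∉ closure Q.1 by rwa [Q.2.2.1.closure_eq])
    have r3 : 0 < r / 3 := by positivity
    obtain ⟨k, hk⟩ := (denseRange_denseSeq XX).exists_dist_lt x r3
    have h1 : ENNReal.ofReal (r / 2) < G Q k := by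
      refine lt_of_lt_of_le ((ENNReal.ofReal_lt_ofReal_iff (by positivity)).2
        (show r / 2 < 2 * r / 3 by linarith)) (le_infEDist.2 fun y hy => not_lt.1 fun hc => ?_)
      have h2 := edist_lt_ofReal.1 hc
      have h3 := hr.trans_le (infEDist_le_edist_of_mem hy)
      refine lt_asymm h3 (edist_lt_ofReal.2 ?_)
      linarith [dist_triangle x (denseSeq XX k) y]
    refine lt_of_lt_of_le (ENNReal.ofReal_pos.2 (show 0 < r / 6 by positivity))
      (le_liminf_of_le (by isBoundedDefault) ?_)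
    filter_upwards [(h k).eventually (lt_mem_nhds h1)] with n hn
    refine le_infEDist.2 fun y hy => not_lt.1 fun hc => ?_
    have h2 := edist_lt_ofReal.1 hc
    have h3 := hn.trans_le (infEDist_le_edist_of_mem hy)
    refine lt_asymm h3 (edist_lt_ofReal.2 ?_)
    linarith [dist_triangle_left (denseSeq XX k) y x]

theorem s4 : induced G inferInstance ≤ weakTop := by
  intro U hU
  letI : TopologicalSpace Pyr := induced G inferInstance
  haveI : FirstCountableTopology Pyr := firstCountableTopology_induced _ _ G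
  show IsOpen U
  rw [← isClosed_compl_iff]
  refine IsSeqClosed.isClosed fun P Q hP h hQ => ?_
  have h1 : Tendsto (fun n => G (P n)) atTop (𝓝 (G Q)) :=
    (continuous_induced_dom (f := G)).continuousAt.tendsto.comp h
  obtain ⟨n, hn⟩ := (hU P Q (weak_of (tendsto_pi_nhds.1 h1)) hQ).exists
  exact hP n hn

theorem incl_inj : Function.Injective incl := fun _ _ h =>
  Subtype.ext (congrArg (fun F : FF => F.1) h)

theorem emb_fell : @IsEmbedding Pyr FF weakTop fell incl :=
  @IsEmbedding.mk Pyr FF weakTop fell incl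
    (@IsInducing.mk Pyr FF weakTop fell incl (le_antisymm s1 (s2.trans (s3.trans s4)))) incl_inj

theorem emb_wijsman : @IsEmbedding Pyr FF weakTop wijsman incl :=
  @IsEmbedding.mk Pyr FF weakTop wijsman incl
    (@IsInducing.mk Pyr FF weakTop wijsman incl (le_antisymm (s1.trans s2) (s3.trans s4))) incl_inj

end Pool.Agent.H.MP_5a76a9_gt
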